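import Pool.Agent.Helper85.NormPLap

set_option autoImplicit false

/-!
# Two polynomial solutions of one Dirichlet problem for the normalised 6/5-Laplacian
-/

namespace Pool.Agent.Results.MP_dcb15c_an.ExplicitNonuniqueness

open Filter Topology Pool.Agent.Helper85.NormPLap

/-- The right-hand side `-(16/5) (x^4 - 6 x^2 y^2 + y^4) / (x^2 + y^2)` (value `0` at the origin). -/
noncomputable def rhs (z : Eu 2) : ℝ :=
  -(16 / 5) * ((z 0 ^ 4 - 6 * z 0 ^ 2 * z 1 ^ 2 + z 1 ^ 4) / (z 0 ^ 2 + z 1 ^ 2))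

/-- The first solution. -/
noncomputable def solU (z : Eu 2) : ℝ := 2 * (z 0 ^ 2 - z 1 ^ 2) ^ 2

/-- The second solution. -/
noncomputable def solV (z : Eu 2) : ℝ := 2 - 8 * z 0 ^ 2 * z 1 ^ 2

theorem contDiff_coord (i : Fin 2) : ContDiff ℝ 2 (fun z : Eu 2 => z i) :=
  (EuclideanSpace.proj (𝕜 := ℝ) i : Eu 2 →L[ℝ] ℝ).contDiff

theorem contDiff_solU : ContDiff ℝ 2 solU := by
  unfold solU
  exact contDiff_const.mul (((contDiff_coord 0).pow 2 |>.sub ((contDiff_coord 1).pow 2)).pow 2)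

theorem contDiff_solV : ContDiff ℝ 2 solV := by
  unfold solV
  exact contDiff_const.sub ((contDiff_const.mul ((contDiff_coord 0).pow 2)).mul
    ((contDiff_coord 1).pow 2))

theorem hasDerivAt_coord (z v : Eu 2) (i : Fin 2) :
    HasDerivAt (fun t : ℝ => (z + t • v) i) (v i) 0 := by
  have : (fun t : ℝ => (z + t • v) i) = fun t : ℝ => z i + t * v i := by
    funext t; simp
  rw [this]
  simpa using ((hasDerivAt_id (0 : ℝ)).mul_const (v i)).const_add (z i)

theorem coord_zero (z v : Eu 2) (i : Fin 2) : (z + (0 : ℝ) • v) i = z i := by simp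

theorem fderiv_solU (z v : Eu 2) :
    fderiv ℝ solU z v = 8 * (z 0 ^ 2 - z 1 ^ 2) * (z 0 * v 0 - z 1 * v 1) := by
  have h1 := hasDerivAt_line (contDiff_solU.contDiffAt (x := z) |>.differentiableAt (by norm_num)) v
  have h2 : HasDerivAt (fun t : ℝ => solU (z + t • v))
      (8 * (z 0 ^ 2 - z 1 ^ 2) * (z 0 * v 0 - z 1 * v 1)) 0 := by
    have h3 := ((((hasDerivAt_coord z v 0).fun_pow 2).fun_sub ((hasDerivAt_coord z v 1).fun_pow 2)).fun_pow
      2).const_mul 2
    unfold solU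
    refine h3.congr_deriv ?_
    simp only [coord_zero]
    ring
  exact h1.unique h2

theorem fderiv_solV (z v : Eu 2) :
    fderiv ℝ solV z v = -16 * (z 0 * z 1) * (z 1 * v 0 + z 0 * v 1) := by
  have h1 := hasDerivAt_line (contDiff_solV.contDiffAt (x := z) |>.differentiableAt (by norm_num)) v
  have h2 : HasDerivAt (fun t : ℝ => solV (z + t • v))
      (-16 * (z 0 * z 1) * (z 1 * v 0 + z 0 * v 1)) 0 := by
    have h3 := ((((hasDerivAt_coord z v 0).fun_pow 2).const_mul 8).fun_mul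
      ((hasDerivAt_coord z v 1).fun_pow 2)).const_sub 2
    unfold solV
    refine h3.congr_deriv ?_
    simp only [coord_zero]
    ring
  exact h1.unique h2

theorem hess_solU (z v w : Eu 2) :
    hess solU z v w = 8 * (2 * (z 0 * v 0 - z 1 * v 1) * (z 0 * w 0 - z 1 * w 1) +
      (z 0 ^ 2 - z 1 ^ 2) * (v 0 * w 0 - v 1 * w 1)) := by
  have h1 := hasDerivAt_fderiv_line (contDiff_solU.contDiffAt (x := z)) v w
  have h2 : HasDerivAt (fun t : ℝ => fderiv ℝ solU (z + t • v) w)
      (8 * (2 * (z 0 * v 0 - z 1 * v 1) * (z 0 * w 0 - z 1 * w 1) +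
      (z 0 ^ 2 - z 1 ^ 2) * (v 0 * w 0 - v 1 * w 1))) 0 := by
    simp only [fderiv_solU]
    have h3 := ((((hasDerivAt_coord z v 0).fun_pow 2).fun_sub
      ((hasDerivAt_coord z v 1).fun_pow 2)).const_mul 8).fun_mul
      (((hasDerivAt_coord z v 0).mul_const (w 0)).fun_sub ((hasDerivAt_coord z v 1).mul_const (w 1)))
    refine h3.congr_deriv ?_
    simp only [coord_zero]
    ring
  exact h1.unique h2

theorem hess_solV (z v w : Eu 2) :
    hess solV z v w = -16 * ((v 0 * z 1 + z 0 * v 1) * (z 1 * w 0 + z 0 * w 1) +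
      (z 0 * z 1) * (v 1 * w 0 + v 0 * w 1)) := by
  have h1 := hasDerivAt_fderiv_line (contDiff_solV.contDiffAt (x := z)) v w
  have h2 : HasDerivAt (fun t : ℝ => fderiv ℝ solV (z + t • v) w)
      (-16 * ((v 0 * z 1 + z 0 * v 1) * (z 1 * w 0 + z 0 * w 1) +
      (z 0 * z 1) * (v 1 * w 0 + v 0 * w 1))) 0 := by
    simp only [fderiv_solV]
    have h3 := (((hasDerivAt_coord z v 0).fun_mul (hasDerivAt_coord z v 1)).const_mul (-16)).fun_mul
      (((hasDerivAt_coord z v 1).mul_const (w 0)).fun_add ((hasDerivAt_coord z v 0).mul_const (w 1)))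
    refine h3.congr_deriv ?_
    simp only [coord_zero]
    ring
  exact h1.unique h2

theorem gradient_eq {φ : Eu 2 → ℝ} {z g : Eu 2}
    (hg : ∀ v, fderiv ℝ φ z v = g 0 * v 0 + g 1 * v 1) : gradient φ z = g := by
  unfold gradient
  rw [LinearIsometryEquiv.symm_apply_eq]
  ext v
  rw [hg, InnerProductSpace.toDual_apply_apply]
  simp [PiLp.inner_apply, Fin.sum_univ_two, mul_comm]

theorem normsq (e : Eu 2) : ‖e‖ ^ 2 = e 0 ^ 2 + e 1 ^ 2 := by
  rw [EuclideanSpace.norm_sq_eq]
  simp [Fin.sum_univ_two]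

theorem r2_pos {z : Eu 2} (hz : z ≠ 0) : 0 < z 0 ^ 2 + z 1 ^ 2 := by
  rw [← normsq]
  have := norm_pos_iff.mpr hz
  positivity

theorem dir_solU (z : Eu 2) : ∃ e : Eu 2, e ≠ 0 ∧ ∃ t : ℝ, 0 ≤ t ∧ gradient solU z = t • e ∧
    nplap (6 / 5) e (hess solU z) = rhs z := by
  by_cases hz : z = 0
  · subst hz
    refine ⟨EuclideanSpace.single 0 1, by simp, 0, le_rfl, ?_, ?_⟩
    · refine gradient_eq fun v => ?_
      rw [fderiv_solU]; simp
    · unfold nplap rhs
      simp [hess_solU, Fin.sum_univ_two]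
  · have hr := r2_pos hz
    have key : ∀ s : ℝ, s ^ 2 = 1 → nplap (6 / 5) (!₂[s * z 0, -(s * z 1)] : Eu 2) (hess solU z) =
        rhs z := by
      intro s hs
      have hn : ‖(!₂[s * z 0, -(s * z 1)] : Eu 2)‖ ^ 2 = z 0 ^ 2 + z 1 ^ 2 := by
        rw [normsq]
        simp only [PiLp.toLp_apply, Matrix.cons_val_zero, Matrix.cons_val_one]
        linear_combination (z 0 ^ 2 + z 1 ^ 2) * hs
      have hq : hess solU z (!₂[s * z 0, -(s * z 1)] : Eu 2) (!₂[s * z 0, -(s * z 1)] : Eu 2) =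
          8 * (2 * (z 0 ^ 2 + z 1 ^ 2) ^ 2 + (z 0 ^ 2 - z 1 ^ 2) ^ 2) := by
        rw [hess_solU]
        simp only [PiLp.toLp_apply, Matrix.cons_val_zero, Matrix.cons_val_one]
        linear_combination (8 * (2 * (z 0 ^ 2 + z 1 ^ 2) ^ 2 + (z 0 ^ 2 - z 1 ^ 2) ^ 2)) * hs
      unfold nplap rhs
      rw [hn, hq]
      simp only [Fin.sum_univ_two, hess_solU]
      simp
      field_simp
      ring
    have hne : ∀ s : ℝ, s ^ 2 = 1 → (!₂[s * z 0, -(s * z 1)] : Eu 2) ≠ 0 := by
      intro s hs h0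
      have hn : ‖(!₂[s * z 0, -(s * z 1)] : Eu 2)‖ ^ 2 = z 0 ^ 2 + z 1 ^ 2 := by
        rw [normsq]
        simp only [PiLp.toLp_apply, Matrix.cons_val_zero, Matrix.cons_val_one]
        linear_combination (z 0 ^ 2 + z 1 ^ 2) * hs
      rw [h0] at hn
      simp at hn
      linarith
    rcases le_total 0 (z 0 ^ 2 - z 1 ^ 2) with h | h
    · refine ⟨_, hne 1 (by norm_num), 8 * (z 0 ^ 2 - z 1 ^ 2), by positivity, ?_, key 1 (by norm_num)⟩
      refine gradient_eq fun v => ?_
      rw [fderiv_solU]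
      simp
      ring
    · refine ⟨_, hne (-1) (by norm_num), -(8 * (z 0 ^ 2 - z 1 ^ 2)), by linarith, ?_,
        key (-1) (by norm_num)⟩
      refine gradient_eq fun v => ?_
      rw [fderiv_solU]
      simp
      ring

theorem dir_solV (z : Eu 2) : ∃ e : Eu 2, e ≠ 0 ∧ ∃ t : ℝ, 0 ≤ t ∧ gradient solV z = t • e ∧
    nplap (6 / 5) e (hess solV z) = rhs z := by
  by_cases hz : z = 0
  · subst hz
    refine ⟨EuclideanSpace.single 0 1, by simp, 0, le_rfl, ?_, ?_⟩
    · refine gradient_eq fun v => ?_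
      rw [fderiv_solV]; simp
    · unfold nplap rhs
      simp [hess_solV, Fin.sum_univ_two]
  · have hr := r2_pos hz
    have hn : ∀ s : ℝ, s ^ 2 = 1 → ‖(!₂[s * z 1, s * z 0] : Eu 2)‖ ^ 2 = z 0 ^ 2 + z 1 ^ 2 := by
      intro s hs
      rw [normsq]
      simp only [PiLp.toLp_apply, Matrix.cons_val_zero, Matrix.cons_val_one]
      linear_combination (z 0 ^ 2 + z 1 ^ 2) * hs
    have key : ∀ s : ℝ, s ^ 2 = 1 → nplap (6 / 5) (!₂[s * z 1, s * z 0] : Eu 2) (hess solV z) =
        rhs z := by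
      intro s hs
      have hq : hess solV z (!₂[s * z 1, s * z 0] : Eu 2) (!₂[s * z 1, s * z 0] : Eu 2) =
          -16 * ((z 0 ^ 2 + z 1 ^ 2) ^ 2 + 2 * z 0 ^ 2 * z 1 ^ 2) := by
        rw [hess_solV]
        simp only [PiLp.toLp_apply, Matrix.cons_val_zero, Matrix.cons_val_one]
        linear_combination (-16 * ((z 0 ^ 2 + z 1 ^ 2) ^ 2 + 2 * z 0 ^ 2 * z 1 ^ 2)) * hs
      unfold nplap rhs
      rw [hn s hs, hq]
      simp only [Fin.sum_univ_two, hess_solV]
      simp
      field_simp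
      ring
    have hne : ∀ s : ℝ, s ^ 2 = 1 → (!₂[s * z 1, s * z 0] : Eu 2) ≠ 0 := by
      intro s hs h0
      have := hn s hs
      rw [h0] at this
      simp at this
      linarith
    rcases le_total 0 (z 0 * z 1) with h | h
    · refine ⟨_, hne (-1) (by norm_num), 16 * (z 0 * z 1), by positivity, ?_,
        key (-1) (by norm_num)⟩
      refine gradient_eq fun v => ?_
      rw [fderiv_solV]
      simp
      ring
    · refine ⟨_, hne 1 (by norm_num), -(16 * (z 0 * z 1)), by linarith, ?_, key 1 (by norm_num)⟩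
      refine gradient_eq fun v => ?_
      rw [fderiv_solV]
      simp
      ring

theorem continuous_rhs : Continuous rhs := by
  have hc : ∀ i : Fin 2, Continuous (fun z : Eu 2 => z i) := fun i => (contDiff_coord i).continuous
  rw [continuous_iff_continuousAt]
  intro z
  by_cases hz : z = 0
  · subst hz
    have h0 : rhs 0 = 0 := by simp [rhs]
    unfold ContinuousAt
    rw [h0]
    have hb : ∀ w : Eu 2, ‖rhs w‖ ≤ 16 / 5 * (w 0 ^ 2 + w 1 ^ 2) := by
      intro w
      by_cases hw : w = 0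
      · subst hw; simp [rhs]
      · have hr := r2_pos hw
        unfold rhs
        rw [Real.norm_eq_abs, abs_mul, abs_div, abs_of_pos hr]
        have h1 : |w 0 ^ 4 - 6 * w 0 ^ 2 * w 1 ^ 2 + w 1 ^ 4| ≤ (w 0 ^ 2 + w 1 ^ 2) ^ 2 := by
          rw [abs_le]
          constructor
          · nlinarith [sq_nonneg (w 0 ^ 2 - w 1 ^ 2), sq_nonneg (w 0 * w 1), sq_nonneg (w 0 ^ 2),
              sq_nonneg (w 1 ^ 2)]
          · nlinarith [sq_nonneg (w 0 * w 1)]
        have h2 : |(-(16 / 5) : ℝ)| = 16 / 5 := by norm_num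
        rw [h2]
        refine mul_le_mul_of_nonneg_left ?_ (by norm_num)
        rw [div_le_iff₀ hr]
        nlinarith
    refine squeeze_zero_norm hb ?_
    have : Continuous (fun w : Eu 2 => 16 / 5 * (w 0 ^ 2 + w 1 ^ 2)) :=
      continuous_const.mul (((hc 0).pow 2).add ((hc 1).pow 2))
    have h3 := this.tendsto 0
    simpa using h3
  · have hr := r2_pos hz
    unfold rhs
    refine ContinuousAt.mul continuousAt_const (ContinuousAt.div ?_ ?_ hr.ne')
    · exact ((((hc 0).pow 4).sub ((continuous_const.mul ((hc 0).pow 2)).mul ((hc 1).pow 2))).add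
        ((hc 1).pow 4)).continuousAt
    · exact (((hc 0).pow 2).add ((hc 1).pow 2)).continuousAt

theorem solution_solU : IsDirichletSolution (6 / 5) (Metric.ball (0 : Eu 2) 1) rhs solU solU where
  continuousOn := contDiff_solU.continuous.continuousOn
  sub := fun z _ => by
    obtain ⟨e, he, t, ht, h1, h2⟩ := dir_solU z
    exact (sub_super_of_dir (by norm_num) contDiff_solU.contDiffAt he ht h1 h2).1
  super := fun z _ => by
    obtain ⟨e, he, t, ht, h1, h2⟩ := dir_solU z
    exact (sub_super_of_dir (by norm_num) contDiff_solU.contDiffAt he ht h1 h2).2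
  boundary := fun _ _ => rfl

theorem solution_solV : IsDirichletSolution (6 / 5) (Metric.ball (0 : Eu 2) 1) rhs solU solV where
  continuousOn := contDiff_solV.continuous.continuousOn
  sub := fun z _ => by
    obtain ⟨e, he, t, ht, h1, h2⟩ := dir_solV z
    exact (sub_super_of_dir (by norm_num) contDiff_solV.contDiffAt he ht h1 h2).1
  super := fun z _ => by
    obtain ⟨e, he, t, ht, h1, h2⟩ := dir_solV z
    exact (sub_super_of_dir (by norm_num) contDiff_solV.contDiffAt he ht h1 h2).2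
  boundary := fun z hz => by
    rw [frontier_ball (0 : Eu 2) one_ne_zero, mem_sphere_zero_iff_norm] at hz
    have h1 := normsq z
    rw [hz] at h1
    unfold solU solV
    have h2 : z 1 ^ 2 = 1 - z 0 ^ 2 := by linarith
    have h3 : 2 - 8 * z 0 ^ 2 * z 1 ^ 2 = 2 - 8 * z 0 ^ 2 * (1 - z 0 ^ 2) := by rw [h2]
    have h4 : 2 * (z 0 ^ 2 - z 1 ^ 2) ^ 2 = 2 * (z 0 ^ 2 - (1 - z 0 ^ 2)) ^ 2 := by rw [h2]
    rw [h3, h4]
    ring

/-- For `p = 6/5` the Dirichlet problem for `Δ_p^N u = f` in the open unit disk of the plane, with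
the continuous right-hand side `f = -(16/5) (x^4 - 6 x^2 y^2 + y^4) / (x^2 + y^2)` and continuous
boundary values, has two different viscosity solutions, both of them polynomials:
`2 (x^2 - y^2)^2` and `2 - 8 x^2 y^2`. -/
theorem result :
    IsOpen (Metric.ball (0 : Eu 2) 1) ∧ IsConnected (Metric.ball (0 : Eu 2) 1) ∧
    Bornology.IsBounded (Metric.ball (0 : Eu 2) 1) ∧
    Continuous rhs ∧ Continuous solU ∧ Continuous solV ∧
    IsDirichletSolution (6 / 5) (Metric.ball (0 : Eu 2) 1) rhs solU solU ∧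
    IsDirichletSolution (6 / 5) (Metric.ball (0 : Eu 2) 1) rhs solU solV ∧
    (∀ z ∈ Metric.ball (0 : Eu 2) 1, solU z ≠ solV z) := by
  refine ⟨Metric.isOpen_ball, ?_, Metric.isBounded_ball, continuous_rhs, contDiff_solU.continuous,
    contDiff_solV.continuous, solution_solU, solution_solV, ?_⟩
  · exact (convex_ball (0 : Eu 2) 1).isConnected ⟨0, by simp⟩
  · intro z hz h
    rw [mem_ball_zero_iff] at hz
    have h1 := normsq z
    have h2 : ‖z‖ ^ 2 < 1 := by nlinarith [norm_nonneg z]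
    unfold solU solV at h
    nlinarith [sq_nonneg (z 0), sq_nonneg (z 1)]

end Pool.Agent.Results.MP_dcb15c_an.ExplicitNonuniqueness
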