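import Mathlib
import Pool.Agent.Helper37.PL.Defs
import Pool.Agent.Helper37.PL.LowD

/-!
# Non-uniqueness for the normalized `p`-Laplace equation with a continuous source term

For every `p` with `1 < p < 2` there are a bounded domain `Ω` in the plane and continuous functions
`f`, `g` such that the Dirichlet problem `Δ_p^N u = f` in `Ω`, `u = g` on `∂Ω`, has two different
viscosity solutions.
-/

open Pool.Agent.Helper37.PL

theorem Pool.Agent.Results.MP_dcb15c_an.NonUniqueness.result (p : ℝ) (hp1 : 1 < p) (hp2 : p < 2) :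
    ∃ (Ω : Set (E 2)) (f g u v : E 2 → ℝ), IsOpen Ω ∧ IsConnected Ω ∧ Bornology.IsBounded Ω ∧
      Continuous f ∧ Continuous g ∧ IsSolution p Ω f g u ∧ IsSolution p Ω f g v ∧
      ∃ x ∈ Ω, u x ≠ v x :=
  nonuniqueness_low hp1 hp2
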